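import Pool.Agent.N358.Rat3

set_option autoImplicit false

/-!
# Unbounded solutions of `x_{n+1} = (α + x_n) / x_{n-2}`

For every `α > 0` all solutions with sufficiently small positive initial values are unbounded.
-/

namespace Pool.Agent.Results.MP_f66a6a_an.UnboundedEveryAlpha

/-- here `x n` is the term `x_{n-2}` of the problem -/
theorem result (α : ℝ) (hα : 0 < α) :
    ∃ ε : ℝ, 0 < ε ∧ ∀ p q r : ℝ, 0 < p → p ≤ ε → 0 < q → q ≤ ε → 0 < r → r ≤ ε →
      ∃ x : ℕ → ℝ, x 0 = p ∧ x 1 = q ∧ x 2 = r ∧ (∀ n, 0 < x n) ∧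
        (∀ n, x (n + 3) = (α + x (n + 2)) / x n) ∧ ¬ BddAbove (Set.range x) := by
  refine ⟨Real.exp (-(6 * (|Real.log α| + Real.log (1 + α)) + 2)), Real.exp_pos _, ?_⟩
  intro p q r hp hp' hq hq' hr hr'
  obtain ⟨x, e0, e1, e2, hpos, hrec⟩ := Pool.Agent.N358.Rat3.exists_solution α p q r hα hp hq hr
  exact ⟨x, e0, e1, e2, hpos, hrec, Pool.Agent.N358.Rat3.unbounded α hα x hpos hrec
    (by rw [e0]; exact hp') (by rw [e1]; exact hq') (by rw [e2]; exact hr')⟩

end Pool.Agent.Results.MP_f66a6a_an.UnboundedEveryAlpha
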